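import Mathlib
import Pool.Agent.H85.LY1

namespace Pool.Agent.Results.MP_d98278_an.Atoms

open MeasureTheory ProbabilityTheory Filter Topology Matrix
open scoped Matrix.Norms.L2Operator NNReal

/-- the operator norm for the Euclidean norm of `ℂ²` -/
noncomputable def opn (M : GL (Fin 2) ℂ) : ℝ :=
  ‖toEuclideanCLM (n := Fin 2) (𝕜 := ℂ) (M : Matrix (Fin 2) (Fin 2) ℂ)‖

/-- locally constant cocycle of range `N` -/
def Cocycle (N : ℕ) (A : (ℤ → ℝ) → GL (Fin 2) ℂ) : Prop :=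
  (∀ i j, Measurable fun x => (A x : Matrix (Fin 2) (Fin 2) ℂ) i j) ∧
  (∀ x y, (∀ k : ℤ, |k| ≤ N → x k = y k) → A x = A y) ∧
  ∃ C : ℝ, ∀ x, |Real.log (opn (A x))| ≤ C ∧ |Real.log (opn (A x)⁻¹)| ≤ C

/-- `A^n(x) = A(f^(n-1) x) ⋯ A(f x) A(x)` -/
noncomputable def it (A : (ℤ → ℝ) → GL (Fin 2) ℂ) (x : ℤ → ℝ) : ℕ → GL (Fin 2) ℂ
  | 0 => 1
  | n + 1 => A (fun k => x (k + n)) * it A x n

/-- the extremal Lyapunov exponents of `(A, p)` are `a` and `b` -/
def Lyap (A : (ℤ → ℝ) → GL (Fin 2) ℂ) (p : Measure ℝ) (a b : ℝ) : Prop :=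
  ∀ᵐ x ∂(Measure.infinitePi fun _ : ℤ => p),
    Tendsto (fun n : ℕ => Real.log (opn (it A x n)) / n) atTop (𝓝 a) ∧
    Tendsto (fun n : ℕ => Real.log (opn (it A x n)⁻¹)⁻¹ / n) atTop (𝓝 b)

/-- the distance `d(p, q)` -/
noncomputable def tv (p q : Measure ℝ) : ℝ :=
  ⨆ φ : {φ : ℝ → ℝ // Measurable φ ∧ ∀ x, |φ x| ≤ 1}, |∫ x, φ.1 x ∂p - ∫ x, φ.1 x ∂q|

open Pool.Agent.H85.LY

noncomputable def dg (t : ℝ) : Matrix (Fin 2) (Fin 2) ℂ :=
  diagonal ![(Real.exp t : ℂ), (Real.exp (-t) : ℂ)]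

lemma dg_mul (t u : ℝ) : dg t * dg u = dg (t + u) := by
  rw [dg, dg, dg, diagonal_mul_diagonal]
  congr 1
  ext i
  fin_cases i <;> simp [← Complex.exp_add, add_comm]

lemma dg_zero : dg 0 = 1 := by
  ext i j
  fin_cases i <;> fin_cases j <;> simp [dg]

lemma norm_dg (t : ℝ) : ‖dg t‖ = Real.exp |t| := by
  rw [dg, l2_opNorm_diagonal, Pi.norm_def, Finset.univ_fin2, Finset.sup_insert,
    Finset.sup_singleton]
  simp only [cons_val_zero, cons_val_one, NNReal.coe_max, coe_nnnorm,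
    Complex.norm_real, Real.norm_eq_abs, Real.abs_exp]
  exact (Real.exp_monotone.map_max).symm

noncomputable def Dg (t : ℝ) : GL (Fin 2) ℂ :=
  ⟨dg t, dg (-t), by simp [dg_mul, dg_zero], by simp [dg_mul, dg_zero]⟩

lemma jj : (!![0, 1; 1, 0] : Matrix (Fin 2) (Fin 2) ℂ) * !![0, 1; 1, 0] = 1 := by
  simp [one_fin_two]

noncomputable def J : GL (Fin 2) ℂ := ⟨!![0, 1; 1, 0], !![0, 1; 1, 0], jj, jj⟩

lemma J_un : (!![0, 1; 1, 0] : Matrix (Fin 2) (Fin 2) ℂ) ∈ unitary _ := by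
  have : star (!![0, 1; 1, 0] : Matrix (Fin 2) (Fin 2) ℂ) = !![0, 1; 1, 0] := by
    ext i j
    fin_cases i <;> fin_cases j <;> simp
  rw [Unitary.mem_iff, this]
  exact ⟨jj, jj⟩

noncomputable def W (e : ℝ) : GL (Fin 2) ℂ := if e = 1 then 1 else J

lemma opn_W (e t : ℝ) : opn (W e * Dg t) = Real.exp |t| ∧ opn (W e * Dg t)⁻¹ = Real.exp |t| := by
  unfold W
  split_ifs
  · rw [one_mul]
    exact ⟨norm_dg t, (norm_dg (-t)).trans (by rw [abs_neg])⟩
  · rw [_root_.mul_inv_rev]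
    exact ⟨(CStarRing.norm_mem_unitary_mul _ J_un).trans (norm_dg t),
      (CStarRing.norm_mul_mem_unitary _ J_un).trans ((norm_dg (-t)).trans (by rw [abs_neg]))⟩

lemma Dg_mul (t u : ℝ) : Dg t * Dg u = Dg (t + u) := Units.ext (dg_mul t u)

lemma Dg_zero : Dg 0 = 1 := Units.ext dg_zero

lemma Dg_J : Dg 1 * J = J * Dg (-1) := Units.ext (by
  ext i j
  fin_cases i <;> fin_cases j <;> simp [Dg, J, dg, mul_apply, Fin.sum_univ_two])

noncomputable def A0 (x : ℤ → ℝ) : GL (Fin 2) ℂ :=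
  if |x 0| = |x 1| then if 0 < x 0 then J else 1 else Dg 1

lemma it_eq (x : ℤ → ℝ) (n : ℕ) : it A0 x n = W (ep n x) * Dg (S n x) := by
  induction n with
  | zero => simp [it, ep, S, W, Dg_zero]
  | succ n ih =>
    have w1 : W 1 = 1 := if_pos rfl
    have w2 : W (-1) = J := if_neg (by norm_num)
    have e : J * J = 1 := Units.ext jj
    rw [it, ih, ep, S, ep, S, Finset.prod_range_succ, Finset.sum_range_succ, ← ep, ← S, A0, s, h,
      zero_add, add_comm (1 : ℤ)]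
    by_cases a : |x n| = |x (n + 1)| <;> by_cases b : 0 < x n <;>
      rcases ep_cases n x with c | c <;>
      simp [a, b, c, w1, w2, e, ← mul_assoc, Dg_mul, Dg_J, add_comm (S n x)] <;>
      rw [mul_assoc, Dg_mul]

lemma lyap {p : Measure ℝ} [IsProbabilityMeasure p] {a : ℝ}
    (h : ∀ᵐ x ∂P p, Tendsto (fun n => |S n x| / n) atTop (𝓝 a)) : Lyap A0 p a (-a) :=
  h.mono fun x hx => by
    simp only [it_eq, opn_W, Real.log_inv, Real.log_exp, neg_div]
    exact ⟨hx, hx.neg⟩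

theorem result : ∃ (A : (ℤ → ℝ) → GL (Fin 2) ℂ) (p : Measure ℝ), IsProbabilityMeasure p ∧
    Cocycle 1 A ∧ Lyap A p 1 (-1) ∧ ∀ γ : ℝ, 0 < γ → ∀ Z : Set ℝ, MeasurableSet Z → p Z = 1 →
      ∃ q : Measure ℝ, IsProbabilityMeasure q ∧ q Z = 1 ∧ tv p q < γ ∧ Lyap A q 0 0 := by
  have sym : (gaussianReal 0 1).map (fun x => -x) = gaussianReal 0 1 := by
    rw [gaussianReal_map_neg, neg_zero]
  have := nullSingletonClass_gaussianReal (μ := 0) (one_ne_zero (α := ℝ≥0))
  refine ⟨A0, gaussianReal 0 1, inferInstance, ⟨fun i j => ?_, fun x y h => ?_, 1, fun x => ?_⟩,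
    lyap ?_, fun γ hγ Z hZ h1 => ?_⟩
  · simp only [A0, apply_ite fun M : GL (Fin 2) ℂ => (M : Matrix (Fin 2) (Fin 2) ℂ) i j]
    exact Measurable.ite (by measurability)
      (Measurable.ite (by measurability) measurable_const measurable_const) measurable_const
  · rw [A0, A0, h 0 (by simp), h 1 (by simp)]
  · obtain ⟨e, t, h1, h2⟩ : ∃ e t, A0 x = W e * Dg t ∧ |t| ≤ 1 := by
      unfold A0
      split_ifs
      exacts [⟨0, 0, by simp [W, Dg_zero], by simp⟩, ⟨1, 0, by simp [W, Dg_zero], by simp⟩,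
        ⟨1, 1, by simp [W], by simp⟩]
    simpa only [h1, opn_W, Real.log_exp, abs_abs, and_self] using h2
  · have a : ∀ᵐ x ∂P (gaussianReal 0 1), ∀ k : ℕ, |x k| ≠ |x (k + 1)| := by
      refine ae_all_iff.2 fun k => ?_
      have m : MeasurableSet {y : ℝ × ℝ | |y.1| ≠ |y.2|} := by measurability
      have := (Measure.ae_prod_mem_iff_ae_ae_mem (μ := gaussianReal 0 1) (ν := gaussianReal 0 1)
        m).2 (Eventually.of_forall fun u => by
          filter_upwards [(Set.toFinite {u, -u}).countable.ae_notMem _] with v hv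
          simp only [Set.mem_insert_iff, Set.mem_singleton_iff] at hv
          exact fun e => hv (abs_eq_abs.1 e.symm))
      rw [← Measure.infinitePi_map_eval_prod (P := fun _ : ℤ => gaussianReal 0 1)
        (by simp : (k : ℤ) ≠ k + 1)] at this
      exact (ae_of_ae_map (by fun_prop) this).mono fun x hx => hx
    filter_upwards [a] with x hx
    refine tendsto_const_nhds.congr' ((eventually_gt_atTop 0).mono fun n hn => ?_)
    simp [S, ep, Pool.Agent.H85.LY.h, s, hx, hn.ne']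
  have a : ∀ᵐ x ∂gaussianReal 0 1, x ∈ Z := (prob_compl_eq_zero_iff hZ).2 h1
  have b : ∀ᵐ x ∂gaussianReal 0 1, -x ∈ Z := ae_of_ae_map (by fun_prop) (sym.symm ▸ a)
  obtain ⟨z, z1, z2, z0⟩ := (a.and (b.and (Measure.ae_ne _ 0))).exists
  obtain ⟨c, c0, c1, c2⟩ : ∃ c : ℝ≥0, 0 < c ∧ 2 * c ≤ 1 ∧ 4 * (c : ℝ) < γ := by
    obtain ⟨c, c0, c1⟩ := exists_between (show 0 < min (1 / 2) (γ / 4) by positivity)
    rw [lt_min_iff] at c1
    lift c to ℝ≥0 using c0.le
    exact ⟨c, c0, by rw [← NNReal.coe_le_coe]; push_cast; linarith, by linarith⟩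
  set q := (1 - 2 * c) • gaussianReal 0 1 + (c • Measure.dirac z + c • Measure.dirac (-z))
  have t : ∀ Y : Set ℝ, z ∈ Y → -z ∈ Y → gaussianReal 0 1 Y = 1 → q Y = 1 := fun Y y1 y2 y3 => by
    simp only [q, Measure.add_apply, Measure.smul_apply, y3, Measure.dirac_apply_of_mem y1,
      Measure.dirac_apply_of_mem y2]
    rw [← add_smul, ← add_smul, ← two_mul, tsub_add_cancel_of_le c1, one_smul]
  have : IsProbabilityMeasure q := ⟨t _ trivial trivial measure_univ⟩
  refine ⟨q, this, t Z z1 z2 h1, lt_of_le_of_lt (Real.iSup_le (fun φ => ?_) (by positivity)) c2, ?_⟩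
  · have i : ∀ (μ : Measure ℝ) [IsFiniteMeasure μ], Integrable φ.1 μ := fun μ _ =>
      Integrable.of_bound φ.2.1.aestronglyMeasurable 1 (Eventually.of_forall φ.2.2)
    rw [integral_add_measure (i _) (i _), integral_add_measure (i _) (i _)]
    simp only [integral_smul_nnreal_measure, integral_dirac, NNReal.smul_def, smul_eq_mul,
      NNReal.coe_sub c1]
    have g := norm_integral_le_of_norm_le_const (μ := gaussianReal 0 1) (f := φ.1) (C := 1)
      (Eventually.of_forall φ.2.2)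
    have g1 := abs_le.1 (φ.2.2 z)
    have g2 := abs_le.1 (φ.2.2 (-z))
    rw [probReal_univ, mul_one, Real.norm_eq_abs, abs_le] at g
    push_cast
    rw [abs_le]
    constructor <;> nlinarith [c.coe_nonneg]
  · rw [show Lyap A0 q 0 0 = Lyap A0 q 0 (-0) by rw [neg_zero]]
    refine lyap (S_ae q ?_ z (abs_pos.2 z0) ?_)
    · simp only [q]
      rw [Measure.map_add _ _ measurable_neg, Measure.map_add _ _ measurable_neg, Measure.map_smul,
        Measure.map_smul, Measure.map_smul, sym, Measure.map_dirac' measurable_neg,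
        Measure.map_dirac' measurable_neg, neg_neg, add_comm (c • _)]
    · refine ENNReal.toReal_pos (ne_of_gt ?_) (measure_ne_top _ _)
      simp [q, c0]

end Pool.Agent.Results.MP_d98278_an.Atoms
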